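import Pool.Agent.helper54.GR3.Spec

/-!
# WS4: weighted sums with two centres
-/

set_option autoImplicit false

open Complex Metric Set Filter Topology MeasureTheory
open MPS (om)
open PPS (pre TT fd)
open XPS (Df er dens tau)
open Pool.Agent.helper16.Multibrot

noncomputable section

namespace GR

theorem WS4_ineq (r x y : ℝ) (hx : 0 < x) (hy : 0 < y) :
    r ^ 2 / (x ^ 2 * y) ≤ r ^ 2 / x ^ 3 + r ^ 2 / y ^ 3 := by
  have hr : 0 ≤ r ^ 2 := sq_nonneg r
  rcases le_total x y with h | h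
  · have h1 : r ^ 2 / (x ^ 2 * y) ≤ r ^ 2 / x ^ 3 := by
      apply div_le_div_of_nonneg_left hr (by positivity)
      calc x ^ 3 = x ^ 2 * x := by ring
        _ ≤ x ^ 2 * y := by gcongr
    have h2 : 0 ≤ r ^ 2 / y ^ 3 := by positivity
    linarith
  · have h1 : r ^ 2 / (x ^ 2 * y) ≤ r ^ 2 / y ^ 3 := by
      apply div_le_div_of_nonneg_left hr (by positivity)
      calc y ^ 3 = y ^ 2 * y := by ring
        _ ≤ x ^ 2 * y := by gcongr
    have h2 : 0 ≤ r ^ 2 / x ^ 3 := by positivity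
    linarith

theorem WS4 (h3 : WS3_stmt) (h5 : WS5_stmt) : WS4_stmt := by
  intro ι s z r a b d hd hr hdis ha hb hda
  classical
  have hxpos : ∀ j ∈ s, 0 < ‖z j - a‖ := fun j hj => by linarith [hr j hj, ha j hj]
  have hypos : ∀ j ∈ s, 0 < ‖z j - b‖ := fun j hj => by linarith [hr j hj, hb j hj]
  rw [← Finset.sum_filter_add_sum_filter_not s (fun j => ‖z j - b‖ < d)]
  have A : ∑ j ∈ s.filter (fun j => ‖z j - b‖ < d), r j ^ 2 / (‖z j - a‖ ^ 2 * ‖z j - b‖) ≤ 9 / d := by
    have h1 := h5 ι (s.filter (fun j => ‖z j - b‖ < d)) z r b d hd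
      (fun j hj => hr j (Finset.mem_filter.mp hj).1)
      (fun i hi j hj hij => hdis i (Finset.mem_filter.mp hi).1 j (Finset.mem_filter.mp hj).1 hij)
      (fun j hj => hb j (Finset.mem_filter.mp hj).1) (fun j hj => (Finset.mem_filter.mp hj).2)
    calc ∑ j ∈ s.filter (fun j => ‖z j - b‖ < d), r j ^ 2 / (‖z j - a‖ ^ 2 * ‖z j - b‖)
        ≤ ∑ j ∈ s.filter (fun j => ‖z j - b‖ < d), (1 / d ^ 2) * (r j ^ 2 / ‖z j - b‖) := by
          refine Finset.sum_le_sum fun j hj => ?_
          have hj' := (Finset.mem_filter.mp hj).1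
          have hx := hxpos j hj'
          have hy := hypos j hj'
          rw [one_div, ← div_eq_inv_mul, div_div, mul_comm ‖z j - b‖ (d ^ 2)]
          apply div_le_div_of_nonneg_left (sq_nonneg _) (by positivity)
          have := hda j hj'
          gcongr
      _ = (1 / d ^ 2) * ∑ j ∈ s.filter (fun j => ‖z j - b‖ < d), r j ^ 2 / ‖z j - b‖ := by
          rw [Finset.mul_sum]
      _ ≤ (1 / d ^ 2) * (9 * d) := by gcongr
      _ = 9 / d := by field_simp
  have B : ∑ j ∈ s.filter (fun j => ¬ ‖z j - b‖ < d), r j ^ 2 / (‖z j - a‖ ^ 2 * ‖z j - b‖) ≤ 36 / d := by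
    have h1 := h3 ι (s.filter (fun j => ¬ ‖z j - b‖ < d)) z r a d hd
      (fun j hj => hr j (Finset.mem_filter.mp hj).1)
      (fun i hi j hj hij => hdis i (Finset.mem_filter.mp hi).1 j (Finset.mem_filter.mp hj).1 hij)
      (fun j hj => ha j (Finset.mem_filter.mp hj).1) (fun j hj => hda j (Finset.mem_filter.mp hj).1)
    have h2 := h3 ι (s.filter (fun j => ¬ ‖z j - b‖ < d)) z r b d hd
      (fun j hj => hr j (Finset.mem_filter.mp hj).1)
      (fun i hi j hj hij => hdis i (Finset.mem_filter.mp hi).1 j (Finset.mem_filter.mp hj).1 hij)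
      (fun j hj => hb j (Finset.mem_filter.mp hj).1)
      (fun j hj => not_lt.mp (Finset.mem_filter.mp hj).2)
    calc ∑ j ∈ s.filter (fun j => ¬ ‖z j - b‖ < d), r j ^ 2 / (‖z j - a‖ ^ 2 * ‖z j - b‖)
        ≤ ∑ j ∈ s.filter (fun j => ¬ ‖z j - b‖ < d), (r j ^ 2 / ‖z j - a‖ ^ 3 + r j ^ 2 / ‖z j - b‖ ^ 3) := by
          refine Finset.sum_le_sum fun j hj => ?_
          have hj' := (Finset.mem_filter.mp hj).1
          exact WS4_ineq _ _ _ (hxpos j hj') (hypos j hj')
      _ ≤ 18 / d + 18 / d := by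
          rw [Finset.sum_add_distrib]
          exact add_le_add h1 h2
      _ = 36 / d := by ring
  calc _ ≤ 9 / d + 36 / d := add_le_add A B
    _ = 45 / d := by ring

end GR
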